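import Pool.Agent.W896.FD.ExTri

/-!
# Exact Triangle needs many reads or much memory

We consider Boolean circuits with AND gates of fan-in two, OR gates of any fan-in and negations at
the inputs, whose inputs are the bits of an instance of Exact Triangle with `n` vertices (the edge
flags, and the signs and absolute values of the weights in binary). Such a circuit accepts if and
only if it has a proof tree all of whose leaves are true literals; the formal degree in an input bit
is the largest number of leaves with this bit, that is, the number of times this bit is read.
Nondeterministic, in particular deterministic, branching programs are such circuits (the logarithm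
of the size is the memory, and a bit which is read at most `k` times on every path has degree at
most `k`), and so are programs with a stack; a proof tree of a circuit may even read any part of the
input again and again in its branches.

The circuits have to recognise the instances without a triangle of weight zero. (The instances with
such a triangle are recognised by a disjunction of small conjunctions, each of which reads the bits
of three entries once.) Checking all triples is a circuit of polynomial size and formal degree
`n - 2` in each bit. We show that the size is `2 ^ Ω (n)` if the degrees in the least significant
bits of the weights sum up to `O (n ^ 2)`, while all the other bits may be read as often as one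
likes. So algorithms of this kind with a memory of `o (n)` bits must read the least significant bits
of the weights more than a constant number of times on average, and with a memory of `O (log n)` bits
they must read them `Ω (log n)` times. The statement holds for each vertex separately: it is enough
that the degrees in the least significant bits of the weights at one vertex sum up to at most `k n`;
and then it remains true for circuits with one-sided randomness.

The hard instances are complete graphs (all edge flags are one): at the vertex `u` the weights are
`0` and `1`, the pairs of a matching on the other vertices have the weight `-2` and all other pairs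
the weight `4`.
-/

set_option autoImplicit false

namespace Pool.Agent.Results.MP_62fbe0_lc.FormalDegree

open Pool.Agent.W896.RK Pool.Agent.W896.FD Pool.Agent.W896.FD.ExTri

/-- The bits of the entry `e` of the (symmetric) matrix are `(e, none)` (edge flag),
`(e, some none)` (sign of the weight) and `(e, some (some j))` (with the weight `2 ^ j`); `w + 1` bits
are enough for `n ^ 300`.

1. Let `u` be a vertex and `U r` (`r` in a finite nonempty set) circuits none of which accepts an
instance with a triangle of weight zero, such that every instance without such a triangle is
accepted by at least a `2 ^ (- ⌊n / 2 ^ (60 (k + 3))⌋)` fraction of them. If in each `U r` the formal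
degrees in the least significant bits of the weights of the pairs `{u, v}` sum up to at most `k n`,
then some `U r` has `g` gates with `n ≤ 2 ^ (60 (k + 3)) (⌊log₂ g⌋ + 1)`.

2. If a circuit accepts exactly the instances without a triangle of weight zero (among all
instances), and its formal degrees in the least significant bits of all weights sum up to at most
`k n ^ 2`, then it has `g` gates with `n ≤ 2 ^ (60 (2 k + 3)) (⌊log₂ g⌋ + 1)`. -/
theorem result (k n w : ℕ) (hw : n ^ 300 < 2 ^ (w + 1)) :
    (∀ (u : Fin n) (R : Type) [Fintype R] [Nonempty R] (U : R → Circ (Sym2 (Fin n) × Pl w)),
      (∀ r x, Valid x → (U r).Val x (U r).out → ¬ Yes x) →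
      (∀ x, Valid x → ¬ Yes x →
        Nat.card R ≤ 2 ^ (n / 2 ^ (60 * (k + 3))) * Nat.card {r // (U r).Val x (U r).out}) →
      (∀ r, ∃ d : (U r).G → Sym2 (Fin n) × Pl w → ℕ, IsDeg (U r) id d ∧
        ∑ v, d (U r).out (s(u, v), some (some 0)) ≤ k * n) →
      ∃ r, n ≤ 2 ^ (60 * (k + 3)) * (Nat.log 2 (Fintype.card (U r).G) + 1)) ∧
    ∀ U : Circ (Sym2 (Fin n) × Pl w), (∀ x, Valid x → (U.Val x U.out ↔ ¬ Yes x)) →
      (∃ d : U.G → Sym2 (Fin n) × Pl w → ℕ, IsDeg U id d ∧
        ∑ e, d U.out (e, some (some 0)) ≤ k * n ^ 2) →
      n ≤ 2 ^ (60 * (2 * k + 3)) * (Nat.log 2 (Fintype.card U.G) + 1) :=
  ⟨fun u _ _ _ U hU hc hd => ex_vertex k n w hw u _ U hU hc hd,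
    fun U hU hd => ex_total k n w hw U hU hd⟩

end Pool.Agent.Results.MP_62fbe0_lc.FormalDegree
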