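import Mathlib
import Pool.Agent.W962.Generic.Model
import Pool.Agent.W962.Generic.Main
import Pool.Agent.W962.Generic.Triangle

/-!
# Exact Triangle for algorithms that use the weights through ring operations and equality tests
-/

set_option autoImplicit false

namespace Pool.Agent.Results.MP_62fbe0_lc.GenericRing

open Pool.Agent.W962.Generic MvPolynomial

/-- `(e, w)` is an instance of Exact Triangle on `n` vertices: `e` are the edge flags and `w` the
weights. -/
structure IsInstance (n : ℕ) (e : Fin n → Fin n → Bool) (w : Fin n → Fin n → ℤ) : Prop where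
  flags_symm : ∀ i j, e i j = e j i
  loopless : ∀ i, e i i = false
  weights_symm : ∀ i j, w i j = w j i
  bound : ∀ i j, |w i j| ≤ (n : ℤ) ^ 300

/-- The instance is a yes-instance. -/
def HasZeroTriangle {n : ℕ} (e : Fin n → Fin n → Bool) (w : Fin n → Fin n → ℤ) : Prop :=
  ∃ i j k, i ≠ j ∧ j ≠ k ∧ i ≠ k ∧ e i j = true ∧ e j k = true ∧ e i k = true ∧
    w i j + w j k + w i k = 0

/-! ### The tripartite instances -/

section tripartite

variable {n m : ℕ} [NeZero m]

/-- The part of a vertex. -/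
def part (m : ℕ) (a : Fin n) : ℕ := a.1 / m

/-- The number of a vertex in its part. -/
def idx (a : Fin n) : Fin m := ⟨a.1 % m, Nat.mod_lt _ (Nat.pos_of_ne_zero (NeZero.ne m))⟩

/-- The edge flags. -/
def flg (m : ℕ) (a b : Fin n) : Bool :=
  decide (part m a < 3 ∧ part m b < 3 ∧ part m a ≠ part m b)

/-- The weights. -/
def wt {R : Type} [Zero R] (x : Tri.Var m → R) (a b : Fin n) : R :=
  if part m a = 0 ∧ part m b = 1 then x (0, idx a, idx b)
  else if part m a = 1 ∧ part m b = 0 then x (0, idx b, idx a)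
  else if part m a = 1 ∧ part m b = 2 then x (1, idx a, idx b)
  else if part m a = 2 ∧ part m b = 1 then x (1, idx b, idx a)
  else if part m a = 2 ∧ part m b = 0 then x (2, idx a, idx b)
  else if part m a = 0 ∧ part m b = 2 then x (2, idx b, idx a)
  else 0

theorem wt_symm {R : Type} [Zero R] (x : Tri.Var m → R) (a b : Fin n) : wt x a b = wt x b a := by
  unfold wt
  split_ifs <;> first | rfl | omega

theorem wt_cases {R : Type} [Zero R] (x : Tri.Var m → R) (a b : Fin n) :
    wt x a b = 0 ∨ ∃ v, wt x a b = x v := by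
  unfold wt
  split_ifs
  all_goals first
    | exact Or.inl rfl
    | exact Or.inr ⟨_, rfl⟩

theorem eval_wt (x : Tri.Var m → ℤ) (a b : Fin n) :
    eval x (wt (fun v => (X v : MvPolynomial (Tri.Var m) ℤ)) a b) = wt x a b := by
  unfold wt
  split_ifs <;> simp

theorem wt_degree (a b : Fin n) :
    (wt (fun v => (X v : MvPolynomial (Tri.Var m) ℤ)) a b).totalDegree ≤ 1 := by
  rcases wt_cases (fun v => (X v : MvPolynomial (Tri.Var m) ℤ)) a b with h | ⟨v, h⟩ <;> rw [h]
  · simp
  · simp

theorem exists_of_zero (x : Tri.Var m → ℤ) (h : HasZeroTriangle (flg (n := n) m) (wt x)) :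
    ∃ i j k, x (0, i, j) + x (1, j, k) + x (2, k, i) = 0 := by
  obtain ⟨a, b, c, -, -, -, h1, h2, h3, h4⟩ := h
  simp only [flg, decide_eq_true_eq] at h1 h2 h3
  obtain ⟨ha, hb, hab⟩ := h1
  obtain ⟨-, hc, hbc⟩ := h2
  have hac := h3.2.2
  have ha' : part m a = 0 ∨ part m a = 1 ∨ part m a = 2 := by omega
  have hb' : part m b = 0 ∨ part m b = 1 ∨ part m b = 2 := by omega
  have hc' : part m c = 0 ∨ part m c = 1 ∨ part m c = 2 := by omega
  rcases ha' with ha' | ha' | ha' <;> rcases hb' with hb' | hb' | hb' <;>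
    rcases hc' with hc' | hc' | hc' <;>
    first
    | (exfalso; omega)
    | skip
  · simp [wt, ha', hb', hc'] at h4
    exact ⟨idx a, idx b, idx c, by linarith⟩
  · simp [wt, ha', hb', hc'] at h4
    exact ⟨idx a, idx c, idx b, by linarith⟩
  · simp [wt, ha', hb', hc'] at h4
    exact ⟨idx b, idx a, idx c, by linarith⟩
  · simp [wt, ha', hb', hc'] at h4
    exact ⟨idx c, idx a, idx b, by linarith⟩
  · simp [wt, ha', hb', hc'] at h4
    exact ⟨idx b, idx c, idx a, by linarith⟩
  · simp [wt, ha', hb', hc'] at h4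
    exact ⟨idx c, idx b, idx a, by linarith⟩

theorem zero_of_exists (hm : 3 * m ≤ n) (x : Tri.Var m → ℤ) (i j k : Fin m)
    (h : x (0, i, j) + x (1, j, k) + x (2, k, i) = 0) :
    HasZeroTriangle (flg (n := n) m) (wt x) := by
  have hm0 : 0 < m := Nat.pos_of_ne_zero (NeZero.ne m)
  let a : Fin n := ⟨i.1, by omega⟩
  let b : Fin n := ⟨j.1 + m, by omega⟩
  let c : Fin n := ⟨k.1 + m * 2, by omega⟩
  have pa : part m a = 0 := Nat.div_eq_of_lt i.2
  have pb : part m b = 1 := by
    change (j.1 + m) / m = 1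
    rw [Nat.add_div_right _ hm0, Nat.div_eq_of_lt j.2]
  have pc : part m c = 2 := by
    change (k.1 + m * 2) / m = 2
    rw [Nat.add_mul_div_left _ _ hm0, Nat.div_eq_of_lt k.2]
  have ia : (idx a : Fin m) = i := Fin.ext (Nat.mod_eq_of_lt i.2)
  have ib : (idx b : Fin m) = j := Fin.ext (by
    change (j.1 + m) % m = j.1
    rw [Nat.add_mod_right, Nat.mod_eq_of_lt j.2])
  have ic : (idx c : Fin m) = k := Fin.ext (by
    change (k.1 + m * 2) % m = k.1
    rw [Nat.add_mul_mod_self_left, Nat.mod_eq_of_lt k.2])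
  refine ⟨a, b, c, ?_, ?_, ?_, ?_, ?_, ?_, ?_⟩
  · intro h'; rw [h'] at pa; omega
  · intro h'; rw [h'] at pb; omega
  · intro h'; rw [h'] at pa; omega
  · simp [flg, pa, pb]
  · simp [flg, pb, pc]
  · simp [flg, pa, pc]
  · simp only [wt, pa, pb, pc, ia, ib, ic]
    simp
    linarith

end tripartite

/-- The bound for algorithms with arbitrary parameters. -/
theorem key (n N d q K k : ℕ) (hn : 3 ≤ n) (hq : 0 < q) (hqn : q ≤ n ^ 100)
    (hk : N + 1 < 2 ^ (k + 1)) (hsize : 24 * ((N + 1) * (N + 1) * (2 * K + 1) * d) ≤ n ^ 200)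
    (Ω : Type) (p : PMF Ω) (A : Ω → (Fin n → Fin n → Bool) → RingAlgorithm (Fin n × Fin n) d)
    (hA : ∀ e w, IsInstance n e w → (2 / 3 : ENNReal) ≤ p.toOuterMeasure
      {ω | (A ω e).accepts q K N (fun c => w c.1 c.2) = true ↔ HasZeroTriangle e w}) :
    (n / 3) ^ 3 ≤ 18 * (N + 1) * (d * k) ^ 2 := by
  set m := n / 3 with hm
  have hm0 : 0 < m := by omega
  have : NeZero m := ⟨hm0.ne'⟩
  have hm3 : 3 * m ≤ n := by omega
  set r : ℕ := n ^ 300 / (2 * q) with hr
  have hr1 : 2 * q * r ≤ n ^ 300 := Nat.mul_div_le _ _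
  have hr2 : n ^ 200 ≤ 2 * r + 1 := by
    have h1 : n ^ 300 < 2 * q * (r + 1) := by
      have := Nat.lt_mul_div_succ (n ^ 300) (b := 2 * q) (by omega)
      simpa [hr] using this
    have h2 : n ^ 300 = n ^ 100 * n ^ 200 := by rw [← pow_add]
    by_contra hcon
    push Not at hcon
    have h3 : 2 * (r + 1) ≤ n ^ 200 := by omega
    have h4 : 2 * q * (r + 1) ≤ n ^ 100 * n ^ 200 := by
      calc 2 * q * (r + 1) = q * (2 * (r + 1)) := by ring
        _ ≤ n ^ 100 * n ^ 200 := Nat.mul_le_mul hqn h3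
    omega
  set S : Finset ℤ := (Finset.Icc (-(r : ℤ)) r).image (fun t => (q : ℤ) * t) with hS
  have hq0 : (q : ℤ) ≠ 0 := by exact_mod_cast hq.ne'
  have hScard : S.card = 2 * r + 1 := by
    rw [hS, Finset.card_image_of_injective _ (mul_right_injective₀ hq0), Int.card_Icc]
    omega
  have hSq : ∀ s ∈ S, (q : ℤ) ∣ s := by
    intro s hs
    obtain ⟨t, -, rfl⟩ := Finset.mem_image.1 hs
    exact Dvd.intro _ rfl
  have hSb : ∀ s ∈ S, |s| ≤ (q : ℤ) * r := by
    intro s hs
    obtain ⟨t, ht, rfl⟩ := Finset.mem_image.1 hs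
    rw [abs_mul, abs_of_nonneg (by positivity : (0 : ℤ) ≤ q)]
    exact mul_le_mul_of_nonneg_left (abs_le.2 (Finset.mem_Icc.1 ht)) (by positivity)
  have hqr : 2 * ((q : ℤ) * r) ≤ (n : ℤ) ^ 300 := by
    have : (2 * q * r : ℕ) ≤ n ^ 300 := hr1
    have h' : ((2 * q * r : ℕ) : ℤ) ≤ ((n ^ 300 : ℕ) : ℤ) := by exact_mod_cast this
    push_cast at h'
    linarith
  have hqr0 : 0 ≤ (q : ℤ) * r := by positivity
  -- instances
  have hinst : ∀ x : Tri.Var m → ℤ, (∀ v, |x v| ≤ 2 * ((q : ℤ) * r)) →
      IsInstance n (flg m) (wt x) := by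
    intro x hx
    refine ⟨fun a b => ?_, fun a => ?_, wt_symm x, fun a b => ?_⟩
    · simp only [flg, decide_eq_decide]
      tauto
    · simp [flg]
    · rcases wt_cases x a b with h | ⟨v, h⟩ <;> rw [h]
      · simp only [abs_zero]; positivity
      · exact (hx v).trans hqr
  let c : Fin n × Fin n → MvPolynomial (Tri.Var m) ℤ := fun z => wt (fun v => X v) z.1 z.2
  have hc : ∀ z, (c z).totalDegree ≤ 1 := fun z => wt_degree z.1 z.2
  have hcomap : ∀ ω x, ((A ω (flg m)).comap c hc).accepts q K N x =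
      (A ω (flg m)).accepts q K N (fun z => wt x z.1 z.2) := by
    intro ω x
    rw [comap_accepts]
    simp only [c, eval_wt]
  have hmain := main p (fun ω => (A ω (flg m)).comap c hc) q K N S hSq
    (fun T : Fin m × Fin m × Fin m => Tri.dir 0 T) (fun T => Tri.rho T) ?_ ?_
    (fun x => HasZeroTriangle (flg (n := n) m) (wt x)) ?_ (m ^ 3) ?_ ?_ ?_ ?_ ?_ ?_
  · obtain ⟨W, hW1, hW2, C, hW3, hC⟩ := hmain
    have h1 := Tri.cover d k W (by omega) hW2 C hC
    have h2 : Fintype.card (Fin m × Fin m × Fin m) = m ^ 3 := by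
      simp only [Fintype.card_prod, Fintype.card_fin]; ring
    rw [h2] at hW3
    calc m ^ 3 ≤ _ := hW3
      _ ≤ 6 * (W.card * (3 * (d * k) ^ 2)) := Nat.mul_le_mul_left _ h1
      _ ≤ 6 * ((N + 1) * (3 * (d * k) ^ 2)) := by gcongr
      _ = 18 * (N + 1) * (d * k) ^ 2 := by ring
  · intro T
    refine (totalDegree_add _ _).trans (max_le ?_ ?_) <;> simp
  · intro T
    simp [Tri.rho]
  · rintro x hx ⟨i, j, k'⟩
    refine zero_of_exists hm3 _ i j k' ?_
    have e1 : (1, j, k') ≠ ((0, i, j) : Tri.Var m) := by simp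
    have e2 : (2, k', i) ≠ ((0, i, j) : Tri.Var m) := by simp
    simp only [plant, Tri.dir, Tri.rho, map_add, eval_X, Function.update_self,
      Function.update_of_ne e1, Function.update_of_ne e2]
    ring
  · -- few instances are yes-instances
    intro F hF
    set cube := Fintype.piFinset (fun _ : Tri.Var m => S) with hcube
    have hsub : F ⊆ (Finset.univ : Finset (Fin m × Fin m × Fin m)).biUnion fun T =>
          cube.filter fun x => eval x (X (Tri.dir 0 T) + Tri.rho T) = 0 := by
      intro x hx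
      obtain ⟨hx1, hx2⟩ := hF x hx
      obtain ⟨i, j, k', h⟩ := exists_of_zero x hx2
      refine Finset.mem_biUnion.2 ⟨(i, j, k'), Finset.mem_univ _, Finset.mem_filter.2 ⟨hx1, ?_⟩⟩
      simp only [Tri.dir, Tri.rho, map_add, eval_X]
      linarith
    calc S.card * F.card
        ≤ S.card * ∑ T : Fin m × Fin m × Fin m,
          (cube.filter fun x => eval x (X (Tri.dir 0 T) + Tri.rho T) = 0).card :=
          Nat.mul_le_mul_left _ ((Finset.card_le_card hsub).trans Finset.card_biUnion_le)
      _ = ∑ T : Fin m × Fin m × Fin m,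
          S.card * (cube.filter fun x => eval x (X (Tri.dir 0 T) + Tri.rho T) = 0).card := by
          rw [Finset.mul_sum]
      _ ≤ ∑ _T : Fin m × Fin m × Fin m, 1 * cube.card := by
          refine Finset.sum_le_sum fun T _ => ?_
          refine schwartz_zippel _ ?_ 1 ?_ S
          · intro h0
            have h1 : eval (fun v => if v.1 = 0 then (1 : ℤ) else 0)
                (X (Tri.dir 0 T) + Tri.rho T : MvPolynomial (Tri.Var m) ℤ) = 0 := by
              rw [h0, map_zero]
            simp [Tri.dir, Tri.rho] at h1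
          · refine (totalDegree_add _ _).trans (max_le (by simp) ?_)
            refine (totalDegree_add _ _).trans (max_le ?_ ?_) <;> simp
      _ = m ^ 3 * cube.card := by
          rw [Finset.sum_const, Finset.card_univ, smul_eq_mul]
          simp only [Fintype.card_prod, Fintype.card_fin]
          ring
  · -- size
    rw [hScard]
    refine le_trans ?_ hr2
    have h1 : m ^ 3 ≤ n ^ 3 := Nat.pow_le_pow_left (by omega) 3
    have h2 : 12 ≤ n ^ 197 := by
      calc 12 ≤ 3 ^ 3 := by norm_num
        _ ≤ n ^ 3 := Nat.pow_le_pow_left hn 3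
        _ ≤ n ^ 197 := Nat.pow_le_pow_right (by omega) (by norm_num)
    calc 12 * m ^ 3 ≤ n ^ 197 * n ^ 3 := Nat.mul_le_mul h2 h1
      _ = n ^ 200 := by rw [← pow_add]
  · rw [hScard]
    exact hsize.trans hr2
  · rw [hScard]; omega
  · intro x hx
    have hi := hA (flg m) (wt x) (hinst x fun v => by
      have := hSb _ (Fintype.mem_piFinset.1 hx v)
      linarith)
    simpa only [hcomap] using hi
  · intro x hx T
    have hi := hA (flg m) (wt (plant (Tri.dir 0 T) (Tri.rho T) x)) (hinst _ fun v => by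
      by_cases hv : v = Tri.dir 0 T
      · subst hv
        simp only [plant, Function.update_self, Tri.rho, map_add, eval_X, abs_neg]
        have h1 := hSb _ (Fintype.mem_piFinset.1 hx (Tri.dir 1 T))
        have h2 := hSb _ (Fintype.mem_piFinset.1 hx (Tri.dir 2 T))
        have := abs_add_le (x (Tri.dir 1 T)) (x (Tri.dir 2 T))
        linarith
      · simp only [plant, Function.update_of_ne hv]
        have := hSb _ (Fintype.mem_piFinset.1 hx v)
        linarith)
    simpa only [hcomap] using hi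

/-! ### The trivial algorithm -/

/-- An enumeration of the triples of vertices. -/
noncomputable def en (n : ℕ) : Fin (n ^ 3) ≃ Fin n × Fin n × Fin n :=
  (Fintype.equivFinOfCardEq (by simp only [Fintype.card_prod, Fintype.card_fin]; ring)).symm

/-- The polynomial which checks a triple. -/
noncomputable def tst {n : ℕ} (e : Fin n → Fin n → Bool) (z : Fin n × Fin n × Fin n) :
    MvPolynomial (Fin n × Fin n) ℤ :=
  if z.1 ≠ z.2.1 ∧ z.2.1 ≠ z.2.2 ∧ z.1 ≠ z.2.2 ∧ e z.1 z.2.1 = true ∧ e z.2.1 z.2.2 = true ∧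
    e z.1 z.2.2 = true then X (z.1, z.2.1) + X (z.2.1, z.2.2) + X (z.1, z.2.2) else 1

/-- Check all the triples. -/
noncomputable def trivialAlg {n : ℕ} (e : Fin n → Fin n → Bool) :
    RingAlgorithm (Fin n × Fin n) 1 where
  next h := if ht : h.length < n ^ 3 then tst e (en n ⟨h.length, ht⟩) else 1
  degree_le h := by
    split_ifs
    · unfold tst
      split_ifs
      · refine (totalDegree_add _ _).trans (max_le ((totalDegree_add _ _).trans (max_le ?_ ?_)) ?_)
          <;> simp
      · simp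
    · simp
  output h := h.any fun a => decide (a.2.2 = some 0)

theorem trivialAlg_run {n : ℕ} (e : Fin n → Fin n → Bool) (q K : ℕ) (x : Fin n × Fin n → ℤ)
    (t : ℕ) (ht : t ≤ n ^ 3) :
    ((trivialAlg e).run q K x t).2.length = t ∧
      ((∃ a ∈ ((trivialAlg e).run q K x t).2, a.2.2 = some 0) ↔
        ∃ s : Fin (n ^ 3), s.1 < t ∧ eval x (tst e (en n s)) = 0) := by
  induction t with
  | zero => simp [RingAlgorithm.run]
  | succ t ih =>
    obtain ⟨ih1, ih2⟩ := ih (by omega)
    have htn : t < n ^ 3 := by omega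
    refine ⟨by simp [RingAlgorithm.run, ih1], ?_⟩
    have hnext : (trivialAlg e).next ((trivialAlg e).run q K x t).2 = tst e (en n ⟨t, htn⟩) := by
      simp only [trivialAlg]
      have h1 : ((trivialAlg e).run q K x t).2.length < n ^ 3 := by rw [ih1]; exact htn
      rw [trivialAlg] at h1
      rw [dif_pos h1]
      congr 3
    have hans : ∀ (l : List ℤ) (v : ℤ), (answer q K l v).2.2 = some 0 ↔ v = 0 := by
      intro l v
      simp only [answer]
      constructor
      · intro h
        split_ifs at h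
        exact Option.some.inj h
      · rintro rfl
        simp
    simp only [RingAlgorithm.run, List.mem_cons, exists_eq_or_imp, hnext, hans, ih2]
    constructor
    · rintro (h | ⟨s, hs, h⟩)
      · exact ⟨⟨t, htn⟩, Nat.lt_succ_self t, h⟩
      · exact ⟨s, by omega, h⟩
    · rintro ⟨s, hs, h⟩
      rcases Nat.lt_succ_iff_lt_or_eq.1 hs with h' | h'
      · exact Or.inr ⟨s, h', h⟩
      · left
        have : s = ⟨t, htn⟩ := Fin.ext h'
        rw [← this]
        exact h

theorem trivialAlg_accepts {n : ℕ} (e : Fin n → Fin n → Bool) (q K : ℕ) (w : Fin n → Fin n → ℤ) :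
    (trivialAlg e).accepts q K (n ^ 3) (fun c => w c.1 c.2) = true ↔ HasZeroTriangle e w := by
  have h1 : (trivialAlg e).accepts q K (n ^ 3) (fun c => w c.1 c.2) = true ↔
      ∃ a ∈ ((trivialAlg e).run q K (fun c => w c.1 c.2) (n ^ 3)).2, a.2.2 = some 0 := by
    simp [RingAlgorithm.accepts, trivialAlg]
  rw [h1, (trivialAlg_run e q K (fun c => w c.1 c.2) (n ^ 3) le_rfl).2]
  constructor
  · rintro ⟨s, -, h⟩
    unfold tst at h
    split_ifs at h with h2
    · exact ⟨_, _, _, h2.1, h2.2.1, h2.2.2.1, h2.2.2.2.1, h2.2.2.2.2.1, h2.2.2.2.2.2, by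
        simpa using h⟩
    · simp at h
  · rintro ⟨i, j, k, h⟩
    refine ⟨(en n).symm (i, j, k), ((en n).symm (i, j, k)).2, ?_⟩
    rw [Equiv.apply_symm_apply]
    unfold tst
    rw [if_pos ⟨h.1, h.2.1, h.2.2.1, h.2.2.2.1, h.2.2.2.2.1, h.2.2.2.2.2.1⟩]
    simpa using h.2.2.2.2.2.2

/-- **Exact Triangle in the generic ring model.**

1. Let a randomised algorithm compute, adaptively, the values of `N` integer polynomials of degree
at most `d` in the weights, and let it learn, besides the edge flags, the differences of all the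
pairs of computed values which differ by at most `K` (in particular, which of the values are equal),
the residues of all the computed values modulo `q`, and those computed values whose absolute value
is at most `K` (`q, K ≤ n ^ 100`).  If it decides Exact Triangle on `n ≥ 3` vertices with error
probability at most `1 / 3`, then `n ^ 3 ≤ 40500 N (d ⌈log₂ n⌉) ^ 2`.
2. There is such an algorithm, deterministic and always correct, with `d = 1` and `N = n ^ 3`. -/
theorem result :
    (∀ n N d q K : ℕ, 3 ≤ n → 0 < q → q ≤ n ^ 100 → K ≤ n ^ 100 →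
      ∀ (Ω : Type) (p : PMF Ω)
        (A : Ω → (Fin n → Fin n → Bool) → RingAlgorithm (Fin n × Fin n) d),
      (∀ e w, IsInstance n e w → (2 / 3 : ENNReal) ≤ p.toOuterMeasure
        {ω | (A ω e).accepts q K N (fun c => w c.1 c.2) = true ↔ HasZeroTriangle e w}) →
      n ^ 3 ≤ 40500 * N * (d * Nat.clog 2 n) ^ 2) ∧
    (∀ n q K : ℕ, ∃ A : (Fin n → Fin n → Bool) → RingAlgorithm (Fin n × Fin n) 1,
      ∀ e w, IsInstance n e w →
        ((A e).accepts q K (n ^ 3) (fun c => w c.1 c.2) = true ↔ HasZeroTriangle e w)) := by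
  refine ⟨?_, fun n q K => ⟨fun e => trivialAlg e, fun e w _ => trivialAlg_accepts e q K w⟩⟩
  intro n N d q K hn hq hqn hK Ω p A hA
  have hm : n ^ 3 ≤ 125 * (n / 3) ^ 3 := by
    have h1 : n ≤ 5 * (n / 3) := by omega
    calc n ^ 3 ≤ (5 * (n / 3)) ^ 3 := Nat.pow_le_pow_left h1 3
      _ = 125 * (n / 3) ^ 3 := by ring
  have hm1 : 0 < (n / 3) ^ 3 := pow_pos (by omega) 3
  rcases Nat.eq_zero_or_pos N with rfl | hNpos
  · exfalso
    have h2 := key n 0 0 q K 0 hn hq hqn (by norm_num) (by simp) Ω p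
      (fun ω e => ⟨fun _ => 0, fun _ => by simp, (A ω e).output⟩) hA
    simp only [Nat.mul_zero, ne_eq, OfNat.ofNat_ne_zero, not_false_eq_true, zero_pow] at h2
    omega
  rcases Nat.eq_zero_or_pos d with rfl | hdpos
  · exfalso
    have h2 := key n N 0 q K N hn hq hqn Nat.lt_two_pow_self (by simp) Ω p A hA
    simp only [Nat.zero_mul, ne_eq, OfNat.ofNat_ne_zero, not_false_eq_true, zero_pow,
      Nat.mul_zero] at h2
    omega
  · have hclog : 1 ≤ Nat.clog 2 n := Nat.clog_pos (by norm_num) (by omega)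
    by_cases hN : N < n ^ 3
    · by_cases hd : d < n ^ 2
      · have hsize : 24 * ((N + 1) * (N + 1) * (2 * K + 1) * d) ≤ n ^ 200 := by
          have e2 : 2 * K + 1 ≤ 3 * n ^ 100 := by
            have : 1 ≤ n ^ 100 := Nat.one_le_pow _ _ (by omega)
            omega
          have e3 : N + 1 ≤ n ^ 3 := hN
          calc 24 * ((N + 1) * (N + 1) * (2 * K + 1) * d)
              ≤ 24 * (n ^ 3 * n ^ 3 * (3 * n ^ 100) * n ^ 2) := by
                gcongr
            _ = 72 * n ^ 108 := by ring
            _ ≤ n ^ 4 * n ^ 108 := by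
                refine Nat.mul_le_mul_right _ ?_
                calc 72 ≤ 3 ^ 4 := by norm_num
                  _ ≤ n ^ 4 := Nat.pow_le_pow_left hn 4
            _ = n ^ 112 := by rw [← pow_add]
            _ ≤ n ^ 200 := Nat.pow_le_pow_right (by omega) (by norm_num)
        have hk : N + 1 < 2 ^ (3 * Nat.clog 2 n + 1) := by
          have h1 : n ≤ 2 ^ Nat.clog 2 n := Nat.le_pow_clog (by norm_num) n
          have h2 : n ^ 3 ≤ 2 ^ (3 * Nat.clog 2 n) := by
            calc n ^ 3 ≤ (2 ^ Nat.clog 2 n) ^ 3 := Nat.pow_le_pow_left h1 3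
              _ = 2 ^ (3 * Nat.clog 2 n) := by rw [← pow_mul, mul_comm]
          rw [pow_succ]
          omega
        have h := key n N d q K (3 * Nat.clog 2 n) hn hq hqn hk hsize Ω p A hA
        calc n ^ 3 ≤ 125 * (n / 3) ^ 3 := hm
          _ ≤ 125 * (18 * (N + 1) * (d * (3 * Nat.clog 2 n)) ^ 2) := Nat.mul_le_mul_left _ h
          _ ≤ 125 * (18 * (2 * N) * (d * (3 * Nat.clog 2 n)) ^ 2) := by
              gcongr
              omega
          _ = 40500 * N * (d * Nat.clog 2 n) ^ 2 := by ring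
      · push Not at hd
        calc n ^ 3 ≤ n ^ 4 := Nat.pow_le_pow_right (by omega) (by norm_num)
          _ = 1 * 1 * (n ^ 2 * 1) ^ 2 := by ring
          _ ≤ 40500 * N * (d * Nat.clog 2 n) ^ 2 := by
              gcongr
              · norm_num
              · exact hNpos
    · push Not at hN
      calc n ^ 3 = 1 * n ^ 3 * (1 * 1) ^ 2 := by ring
        _ ≤ 40500 * N * (d * Nat.clog 2 n) ^ 2 := by
            gcongr
            · norm_num
            · exact hdpos

end Pool.Agent.Results.MP_62fbe0_lc.GenericRing
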